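import Pool.Agent.Y45.TG.Stm

/-!
Project TG, job TG5: the law of the wreath type group.
-/

set_option autoImplicit false

namespace Pool.Agent.Y975.TG

open Pool.Agent.Y45.TG

/-- the word `pw (a, c (u, v), d (u, v))` -/
def PW (pw : FreeGroup (Fin 3)) (c d : FreeGroup (Fin 2)) {G : Type} [Group G] (a u v : G) : G :=
  FreeGroup.lift ![a, FreeGroup.lift ![u, v] c, FreeGroup.lift ![u, v] d] pw

theorem W3_eq (p : ℕ) (pw : FreeGroup (Fin 3)) (c d : FreeGroup (Fin 2)) {G : Type} [Group G]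
    (x y : G) : W3 p pw c d x y = PW pw c d (PW pw c d (PW pw c d (x * y * x⁻¹ * y⁻¹)
      (x * y * x⁻¹ * y⁻¹) (x ^ p)) (x * y * x⁻¹ * y⁻¹) (y ^ p)) x y := rfl

theorem PW_map (pw : FreeGroup (Fin 3)) (c d : FreeGroup (Fin 2)) {G H : Type} [Group G] [Group H]
    (ψ : G →* H) (a u v : G) : ψ (PW pw c d a u v) = PW pw c d (ψ a) (ψ u) (ψ v) := by
  simp only [PW, lift3_map, lift2_map]

theorem PW_one {pw : FreeGroup (Fin 3)} (hF : Frm pw) (c d : FreeGroup (Fin 2)) {G : Type}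
    [Group G] (u v : G) : PW pw c d 1 u v = 1 := hF.one G _ _

theorem PW_phi {p : ℕ} {pw : FreeGroup (Fin 3)} (hF : Frm pw) (c d : FreeGroup (Fin 2)) {X : Type}
    [Group X] (φ : X →* Multiplicative (ZMod p)) (a u v : X) : φ (PW pw c d a u v) = φ a := by
  rw [PW_map]
  exact hF.com _ _ _ _ (mul_comm _ _)

theorem PW_nc {p : ℕ} {pw : FreeGroup (Fin 3)} {c d : FreeGroup (Fin 2)} {X : Type} [Group X]
    {φ : X →* Multiplicative (ZMod p)} (hW : WD p pw c d X φ) {a u v : X} (ha : φ a = 1)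
    (h : u * v ≠ v * u) : PW pw c d a u v = 1 := hW.pw1 _ _ _ ha (hW.cd u v h)

theorem PW_cen {p : ℕ} {pw : FreeGroup (Fin 3)} {c d : FreeGroup (Fin 2)} {X : Type} [Group X]
    {φ : X →* Multiplicative (ZMod p)} (hW : WD p pw c d X φ) {a u v : X} (ha : φ a = 1)
    (hu : φ u = 1) (hu1 : u ≠ 1) (hv : φ v ≠ 1) : PW pw c d a u v = 1 :=
  PW_nc hW ha fun h => hu1 (hW.cen v u hv hu h.symm)

theorem law : LawStmt := by
  intro p pw c d _ hF _ _ X _ φ hW G _ B e hG x y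
  obtain ⟨hz, hz1⟩ := hG.com x y
  obtain ⟨hx, hx1⟩ := hG.pow x
  obtain ⟨hy, hy1⟩ := hG.pow y
  by_cases hxB : x ∈ B
  · by_cases hyB : y ∈ B
    · -- both in the base
      have h0 : W3 p pw c d (⟨x, hxB⟩ : B) ⟨y, hyB⟩ = 1 := by
        refine hG.inj _ fun i => ?_
        rw [W3_map, W3_eq]
        set u : X := e i ⟨x, hxB⟩
        set v : X := e i ⟨y, hyB⟩
        by_cases huv : u * v = v * u
        · have h1 : u * v * u⁻¹ * v⁻¹ = 1 := by
            rw [huv]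
            simp
          rw [h1, PW_one hF, PW_one hF, PW_one hF]
        · refine PW_nc hW ?_ huv
          rw [PW_phi hF, PW_phi hF]
          simp only [map_mul, map_inv]
          rw [mul_comm (φ u) (φ v)]
          simp
      have h1 := congrArg B.subtype h0
      rw [W3_map, map_one] at h1
      exact h1
    · -- `y` is not in the base
      have h0 : PW pw c d (PW pw c d (⟨_, hz⟩ : B) ⟨_, hz⟩ ⟨_, hx⟩) ⟨_, hz⟩ ⟨_, hy⟩ = 1 := by
        refine hG.inj _ fun i => ?_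
        rw [PW_map, PW_map]
        by_cases h1 : e i ⟨_, hz⟩ = 1
        · rw [h1, PW_one hF, PW_one hF]
        · exact PW_cen hW (by rw [PW_phi hF]; exact hz1 i) (hz1 i) h1 (hy1 hyB i)
      have h1 := congrArg B.subtype h0
      rw [PW_map, PW_map, map_one] at h1
      have h2 : PW pw c d (PW pw c d (x * y * x⁻¹ * y⁻¹) (x * y * x⁻¹ * y⁻¹) (x ^ p))
          (x * y * x⁻¹ * y⁻¹) (y ^ p) = 1 := h1
      rw [W3_eq, h2, PW_one hF]
  · -- `x` is not in the base
    have h0 : PW pw c d (⟨_, hz⟩ : B) ⟨_, hz⟩ ⟨_, hx⟩ = 1 := by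
      refine hG.inj _ fun i => ?_
      rw [PW_map]
      by_cases h1 : e i ⟨_, hz⟩ = 1
      · rw [h1, PW_one hF]
      · exact PW_cen hW (hz1 i) (hz1 i) h1 (hx1 hxB i)
    have h1 := congrArg B.subtype h0
    rw [PW_map, map_one] at h1
    have h2 : PW pw c d (x * y * x⁻¹ * y⁻¹) (x * y * x⁻¹ * y⁻¹) (x ^ p) = 1 := h1
    rw [W3_eq, h2, PW_one hF, PW_one hF]

end Pool.Agent.Y975.TG
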